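import Pool.Agent.H62.ST.Final
import Pool.Agent.H62.ST.ArgU

/-!
# `S(T) = Ω_±(√(log T / log log T))`, unconditionally

`S(T)` is the argument function of the Riemann zeta function. On the Riemann hypothesis the theorem is
due to Montgomery (1977). Without any hypothesis the best known result was the exponent `1/3`
(Selberg 1946, Tsang 1986).
-/

set_option autoImplicit false

open Complex Filter Topology Set Pool.Agent.H62.ST

namespace Pool.Agent.Results.MP_dd7e83_nt.UnconditionalOmega

/-- `S(T)` for `T` not the ordinate of a zero. -/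
noncomputable def S0 (T : ℝ) : ℝ := by
  classical
  exact if h : ∃ θ : ℝ, IsArg T θ then (1 / Real.pi) * h.choose else 0

/-- The function `S(T)`: `1/π` times the argument of `ζ(1/2 + iT)` if `T` is not the ordinate of a
zero of `ζ`, and the mean value of the one-sided limits otherwise. -/
noncomputable def S (T : ℝ) : ℝ := by
  classical
  exact if NonOrd T then S0 T else (limUnder (𝓝[<] T) S0 + limUnder (𝓝[>] T) S0) / 2

lemma S_eq {T θ : ℝ} (hT : 0 < T) (hn : NonOrd T) (h : IsArg T θ) : S T = (1 / Real.pi) * θ := by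
  classical
  have hex : ∃ θ : ℝ, IsArg T θ := ⟨θ, h⟩
  have h1 : S T = S0 T := by
    unfold S
    rw [if_pos hn]
  have h2 : S0 T = (1 / Real.pi) * hex.choose := by
    unfold S0
    rw [dif_pos hex]
  rw [h1, h2, isArg_unique hT hn hex.choose_spec h]

lemma compare : ∀ᶠ X : ℝ in atTop, ∀ T ∈ Icc (X / 2) (3 * X / 2),
    Real.sqrt (Real.log T / Real.log (Real.log T)) ≤
      2 * Real.sqrt (Real.log X / Real.log (Real.log X)) := by
  have hll : Tendsto (fun T : ℝ ↦ Real.log (Real.log T)) atTop atTop :=
    Real.tendsto_log_atTop.comp Real.tendsto_log_atTop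
  filter_upwards [hll.eventually_ge_atTop 4, Real.tendsto_log_atTop.eventually_ge_atTop 4,
    eventually_ge_atTop (4:ℝ)] with X h1 h2 h3 T hT
  have hX0 : 0 < X := by linarith
  have hT0 : 0 < T := by linarith [hT.1]
  have hlog2 : Real.log 2 ≤ 1 := by
    have := Real.log_le_sub_one_of_pos (show (0:ℝ) < 2 by norm_num)
    linarith
  have hup : Real.log T ≤ 2 * Real.log X := by
    have e1 : Real.log T ≤ Real.log (2 * X) := Real.log_le_log hT0 (by linarith [hT.2])
    rw [Real.log_mul (by norm_num) hX0.ne'] at e1
    linarith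
  have hlo : Real.log X / 2 ≤ Real.log T := by
    have e1 : Real.log (X / 2) ≤ Real.log T := Real.log_le_log (by linarith) hT.1
    rw [Real.log_div hX0.ne' (by norm_num)] at e1
    linarith
  have hll2 : Real.log (Real.log X) / 2 ≤ Real.log (Real.log T) := by
    have e1 : Real.log (Real.log X / 2) ≤ Real.log (Real.log T) :=
      Real.log_le_log (by linarith) hlo
    rw [Real.log_div (by linarith) (by norm_num)] at e1
    linarith
  have hq : Real.log T / Real.log (Real.log T) ≤ 4 * (Real.log X / Real.log (Real.log X)) := by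
    rw [div_le_iff₀ (by linarith)]
    have e2 : 4 * (Real.log X / Real.log (Real.log X)) * (Real.log (Real.log X) / 2) =
        2 * Real.log X := by
      field_simp
      ring
    calc Real.log T ≤ 2 * Real.log X := hup
      _ = 4 * (Real.log X / Real.log (Real.log X)) * (Real.log (Real.log X) / 2) := e2.symm
      _ ≤ 4 * (Real.log X / Real.log (Real.log X)) * Real.log (Real.log T) := by
          have : 0 ≤ 4 * (Real.log X / Real.log (Real.log X)) := by
            have : 0 ≤ Real.log X / Real.log (Real.log X) := div_nonneg (by linarith) (by linarith)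
            linarith
          gcongr
  calc Real.sqrt (Real.log T / Real.log (Real.log T)) ≤
      Real.sqrt (4 * (Real.log X / Real.log (Real.log X))) := Real.sqrt_le_sqrt hq
    _ = 2 * Real.sqrt (Real.log X / Real.log (Real.log X)) := by
        rw [Real.sqrt_mul (by norm_num), show (4:ℝ) = 2 ^ 2 by norm_num,
          Real.sqrt_sq (by norm_num)]

/-- **Unconditional omega theorem for `S(T)`.** The argument of `ζ` is well defined at every height
`T > 0` which is not the ordinate of a zero, and for some `c > 0` and all large `X` the interval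
`[X/2, 3X/2]` contains such `T` with `S(T) ≥ c √(log T / log log T)` and such `T` with
`S(T) ≤ -c √(log T / log log T)`. -/
theorem result :
    (∀ T : ℝ, 0 < T → NonOrd T → ∃! θ : ℝ, IsArg T θ) ∧
    ∃ c : ℝ, 0 < c ∧ ∀ᶠ X : ℝ in atTop,
      (∃ T ∈ Icc (X / 2) (3 * X / 2), NonOrd T ∧
        c * Real.sqrt (Real.log T / Real.log (Real.log T)) ≤ S T) ∧
      (∃ T ∈ Icc (X / 2) (3 * X / 2), NonOrd T ∧
        S T ≤ -(c * Real.sqrt (Real.log T / Real.log (Real.log T)))) := by
  refine ⟨fun T hT hn ↦ ?_, ?_⟩
  · obtain ⟨θ, h⟩ := isArg_exists hT hn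
    exact ⟨θ, h, fun θ' h' ↦ isArg_unique hT hn h' h⟩
  · obtain ⟨c, hc, h⟩ := omega_local
    have hpi := Real.pi_pos
    refine ⟨c / (2 * Real.pi), by positivity, ?_⟩
    filter_upwards [h, compare, eventually_gt_atTop (0:ℝ)] with X h1 h2 h3
    have key : ∀ T : ℝ, T ∈ Icc (X / 2) (3 * X / 2) →
        c / (2 * Real.pi) * Real.sqrt (Real.log T / Real.log (Real.log T)) ≤
          (1 / Real.pi) * (c * Real.sqrt (Real.log X / Real.log (Real.log X))) := by
      intro T hT
      have := h2 T hT
      calc c / (2 * Real.pi) * Real.sqrt (Real.log T / Real.log (Real.log T))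
          ≤ c / (2 * Real.pi) * (2 * Real.sqrt (Real.log X / Real.log (Real.log X))) := by gcongr
        _ = _ := by field_simp
    constructor
    · obtain ⟨T, θ, hT, hn, hA, hθ⟩ := h1 1 (Or.inl rfl)
      refine ⟨T, hT, hn, ?_⟩
      rw [S_eq (by linarith [hT.1]) hn hA]
      refine (key T hT).trans ?_
      rw [one_mul] at hθ
      gcongr
    · obtain ⟨T, θ, hT, hn, hA, hθ⟩ := h1 (-1) (Or.inr rfl)
      refine ⟨T, hT, hn, ?_⟩
      rw [S_eq (by linarith [hT.1]) hn hA]
      have h4 : (1 / Real.pi) * (c * Real.sqrt (Real.log X / Real.log (Real.log X))) ≤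
          (1 / Real.pi) * (-1 * θ) := by gcongr
      have h5 := (key T hT).trans h4
      linarith

end Pool.Agent.Results.MP_dd7e83_nt.UnconditionalOmega
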